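import Pool.Agent.H.MP_d581c5_al.Main

set_option autoImplicit false
open scoped Pointwise

namespace Pool.Agent.H.MP_d581c5_al

theorem RE1' [inst : DecidableEq G] : ∀ r : ℝ, 0 ≤ r → ∀ S X : Finset G, (∀ s ∈ S, L s ≤ r) →
    (S.card : ℝ) * (X.card : ℝ) ≤ 128 * (1 + r) * ((S * X).card : ℝ) := by
  have : inst = FreeGroup.instDecidableEq := Subsingleton.elim _ _
  subst this
  exact RE1

theorem notRD' [inst : DecidableEq G] : ¬ ∃ C : ℝ, 0 < C ∧ ∃ d : ℕ, ∀ r : ℝ, 0 ≤ r →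
    ∀ (A B : Finset G) (f g : G → ℂ), (∀ y ∈ A, L y ≤ r) →
      ∑ x ∈ A * B, ‖∑ p ∈ (A ×ˢ B).filter (fun p => p.1 * p.2 = x), f p.1 * g p.2‖ ^ 2
        ≤ (C * (1 + r) ^ d) ^ 2 * (∑ y ∈ A, ‖f y‖ ^ 2) * (∑ z ∈ B, ‖g z‖ ^ 2) := by
  have : inst = FreeGroup.instDecidableEq := Subsingleton.elim _ _
  subst this
  exact notRD

end Pool.Agent.H.MP_d581c5_al
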