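import Mathlib

set_option autoImplicit false
open scoped Pointwise Classical
open FreeGroup

namespace Pool.Agent.H.MP_d581c5_al

abbrev Lt := (ℤ × Bool) × Bool
abbrev G := FreeGroup (ℤ × Bool)

def h (a : Lt) : ℤ := if a.2 then a.1.1 else -a.1.1

def N : List Lt → ℕ
  | [] => 0
  | [_] => 1
  | a :: b :: t => (if h b = h a + 1 then 0 else 1) + N (b :: t)

def Cont (u v : List Lt) : Prop := ∃ a ∈ u.getLast?, ∃ b ∈ v.head?, h b = h a + 1

theorem N_pos : ∀ (u : List Lt), u ≠ [] → 1 ≤ N u
  | [], hu => absurd rfl hu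
  | [_], _ => le_rfl
  | a :: b :: t, _ => by
    have := N_pos (b :: t) (by simp)
    rw [N]; omega

theorem N_append : ∀ (u v : List Lt), N (u ++ v) + (if Cont u v then 1 else 0) = N u + N v
  | [], v => by simp [Cont, N]
  | [a], [] => by simp [Cont, N]
  | [a], b :: t => by
    by_cases hc : h b = h a + 1 <;> simp [Cont, N, hc]
    omega
  | a :: b :: t, v => by
    have := N_append (b :: t) v
    have e : Cont (a :: b :: t) v ↔ Cont (b :: t) v := by simp [Cont, List.getLast?_cons_cons]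
    rw [List.cons_append, List.cons_append, N, N, ← List.cons_append]
    simp only [e]
    omega

theorem N_le_add (u v : List Lt) : N (u ++ v) ≤ N u + N v := by
  have := N_append u v
  omega

theorem N_left (u v : List Lt) : N u ≤ N (u ++ v) := by
  have := N_append u v
  split_ifs at this with hc
  · have : v ≠ [] := by rintro rfl; simp [Cont] at hc
    have := N_pos v this
    omega
  · omega

theorem N_right (u v : List Lt) : N v ≤ N (u ++ v) := by
  have := N_append u v
  split_ifs at this with hc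
  · have : u ≠ [] := by rintro rfl; simp [Cont] at hc
    have := N_pos u this
    omega
  · omega

theorem h_inv (a : Lt) : h (a.1, !a.2) = -h a := by
  rcases a with ⟨x, _ | _⟩ <;> simp [h]

theorem N_invRev : ∀ (u : List Lt), N (invRev u) = N u
  | [] => rfl
  | [_] => rfl
  | a :: b :: t => by
    have ih := N_invRev (b :: t)
    have := N_append (invRev (b :: t)) (invRev [a])
    have e : Cont (invRev (b :: t)) (invRev [a]) ↔ h b = h a + 1 := by
      simp only [Cont, invRev, List.map_cons, List.reverse_cons, List.getLast?_append,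
        List.map_nil, List.reverse_nil, List.nil_append]
      simp [h_inv]
      constructor <;> intro <;> omega
    rw [invRev_cons, N]
    simp only [e] at this
    have h1 : N (invRev [a]) = 1 := rfl
    split_ifs at this ⊢ <;> omega

theorem chain : ∀ (b : Lt) (t : List Lt), N (b :: t) = 1 →
    ∀ c ∈ (b :: t).getLast?, h c = h b + t.length
  | b, [], _ => by simp
  | b, a :: t, hN => by
    have h1 := N_pos (a :: t) (by simp)
    rw [N] at hN
    split_ifs at hN with hc
    · intro c hc'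
      rw [List.getLast?_cons_cons] at hc'
      have := chain a t (by omega) c hc'
      rw [this, hc]; simp; ring
    · omega

theorem split (l : List Lt) (hl : IsReduced l) (k : G) :
    ∃ u v, u <+: l ∧ v <:+ k.toWord ∧ (FreeGroup.mk l * k).toWord = u ++ v := by
  induction l with
  | nil => exact ⟨[], k.toWord, List.prefix_rfl, List.suffix_rfl, by
      rw [← one_eq_mk, one_mul]; rfl⟩
  | cons a l ih =>
    obtain ⟨u, v, hu, hv, e⟩ := ih (List.isChain_cons.1 hl).2
    have e1 : (FreeGroup.mk (a :: l) * k).toWord = reduce (a :: (u ++ v)) := by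
      have : FreeGroup.mk (a :: l) * k = FreeGroup.mk (a :: (FreeGroup.mk l * k).toWord) := by
        rw [show a :: (FreeGroup.mk l * k).toWord = [a] ++ (FreeGroup.mk l * k).toWord from rfl,
          ← mul_mk, mk_toWord, ← mul_assoc, mul_mk]
        rfl
      rw [this, toWord_mk, e]
    have hr : reduce (u ++ v) = u ++ v := by rw [← e]; exact reduce_toWord _
    rw [e1, reduce.cons, hr]
    cases u with
    | nil =>
      cases v with
      | nil => exact ⟨[a], [], by simp, hv, rfl⟩
      | cons b v =>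
        by_cases hc : a.1 = b.1 ∧ a.2 = !b.2
        · exact ⟨[], v, List.nil_prefix, (List.suffix_cons b v).trans hv, by simp [hc]⟩
        · exact ⟨[a], b :: v, by simp, hv, by simp only [List.nil_append, if_neg hc]; rfl⟩
    | cons b u =>
      obtain ⟨t, rfl⟩ := hu
      have h1 := (isReduced_cons_cons.1 hl).1
      have hc : ¬ (a.1 = b.1 ∧ a.2 = !b.2) := fun hh => by
        have := h1 hh.1
        rw [this] at hh
        simpa using hh.2
      exact ⟨a :: b :: u, v, ⟨t, rfl⟩, hv, by simp only [List.cons_append, if_neg hc]⟩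

theorem N_mul (g k : G) : N (g * k).toWord ≤ N g.toWord + N k.toWord := by
  obtain ⟨u, v, ⟨t, ht⟩, ⟨t', ht'⟩, e⟩ := split g.toWord isReduced_toWord k
  rw [mk_toWord] at e
  rw [e, ← ht, ← ht']
  exact (N_le_add u v).trans (add_le_add (N_left _ _) (N_right _ _))

def Rd (p q : G) : Prop := (p * q).toWord = p.toWord ++ q.toWord

theorem rd_of (p q : G) (hh : ∀ a ∈ p.toWord.getLast?, ∀ b ∈ q.toWord.head?,
    a.1 = b.1 → a.2 = b.2) : Rd p q := by
  rw [Rd, toWord_mul]
  apply IsReduced.reduce_eq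
  exact List.isChain_append.2 ⟨isReduced_toWord, isReduced_toWord, hh⟩

theorem rd_of_cont (p q : G) (hc : Cont p.toWord q.toWord) : Rd p q := by
  obtain ⟨a, ha, b, hb, e⟩ := hc
  apply rd_of
  intro a' ha' b' hb' h1
  rw [Option.mem_def] at ha ha' hb hb'
  obtain rfl : a = a' := Option.some.inj (ha.symm.trans ha')
  obtain rfl : b = b' := Option.some.inj (hb.symm.trans hb')
  clear ha ha' hb hb'
  rcases a with ⟨x, _ | _⟩ <;> rcases b with ⟨y, _ | _⟩ <;> simp only [h] at h1 e ⊢ <;>
    subst h1 <;> simp at e <;> omega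

theorem lt_of (P z Q : List Lt) (hz : z ≠ [])
    (hc : ¬ Cont P (z ++ Q) ∨ ∃ a ∈ P.getLast?, ∃ b ∈ (P ++ z).getLast?, h a = h b) :
    N P < N (P ++ z) := by
  have h1 := N_append P z
  have h2 := N_pos z hz
  obtain ⟨b, t, rfl⟩ := List.exists_cons_of_ne_nil hz
  rcases hc with hc | ⟨a, ha, c, hc, e⟩
  · have : ¬ Cont P (b :: t) := by simpa [Cont] using hc
    rw [if_neg this] at h1
    omega
  · split_ifs at h1 with hC
    · by_contra hlt
      have h3 := chain b t (by omega) c (by
        rw [List.getLast?_append] at hc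
        simpa [List.getLast?_cons] using hc)
      obtain ⟨a', ha', b', hb', e'⟩ := hC
      rw [Option.mem_def] at ha ha'
      obtain rfl : a = a' := Option.some.inj (ha.symm.trans ha')
      obtain rfl : b = b' := by simpa using hb'
      omega
    · omega

theorem inj (p q p' q' : G) (h1 : Rd p q) (h2 : Rd p' q') (e : p * q = p' * q')
    (hN : N p.toWord = N p'.toWord)
    (hc : (¬ Cont p.toWord q.toWord ∧ ¬ Cont p'.toWord q'.toWord) ∨
      ∃ a ∈ p.toWord.getLast?, ∃ b ∈ p'.toWord.getLast?, h a = h b) : (p, q) = (p', q') := by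
  have hp : p = p' := by
    rw [Rd] at h1 h2
    rw [e, h2] at h1
    apply toWord_injective
    rcases List.append_eq_append_iff.1 h1 with ⟨z, e1, e2⟩ | ⟨z, e1, e2⟩
    · by_cases hz : z = []
      · simpa [hz] using e1
      · exfalso
        have := lt_of p'.toWord z q.toWord hz (by
          rw [← e1, ← e2]
          rcases hc with hc | ⟨a, ha, b, hb, e⟩
          · exact Or.inl hc.2
          · exact Or.inr ⟨b, hb, a, ha, e.symm⟩)
        rw [← e1] at this
        omega
    · by_cases hz : z = []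
      · simpa [hz] using e1.symm
      · exfalso
        have := lt_of p.toWord z q'.toWord hz (by
          rw [← e1, ← e2]
          rcases hc with hc | hc
          · exact Or.inl hc.1
          · exact Or.inr hc)
        rw [← e1] at this
        omega
  subst hp
  rw [mul_left_cancel e]

theorem count (S X : Finset G) (R : ℕ) (hR : ∀ p ∈ S, N p.toWord ≤ R) (T : Finset (G × G))
    (hT : T ⊆ S ×ˢ X) (h1 : ∀ t ∈ T, Rd t.1 t.2)
    (hc : ∀ t ∈ T, ∀ t' ∈ T, (¬ Cont t.1.toWord t.2.toWord ∧ ¬ Cont t'.1.toWord t'.2.toWord) ∨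
      ∃ a ∈ t.1.toWord.getLast?, ∃ b ∈ t'.1.toWord.getLast?, h a = h b) :
    T.card ≤ (S * X).card * (R + 1) := by
  have := Finset.card_le_card_of_injOn (s := T) (t := (S * X) ×ˢ Finset.range (R + 1))
    (fun t => (t.1 * t.2, N t.1.toWord)) (fun t ht => by
      have := Finset.mem_product.1 (hT ht)
      exact Finset.mem_coe.2 (Finset.mem_product.2 ⟨Finset.mul_mem_mul this.1 this.2,
        Finset.mem_range.2 (Nat.lt_succ_of_le (hR _ this.1))⟩))
    (fun t ht t' ht' e => inj t.1 t.2 t'.1 t'.2 (h1 t ht) (h1 t' ht') (congrArg Prod.fst e)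
      (congrArg Prod.snd e) (hc t ht t' ht'))
  simpa using this

theorem fib1 (S X : Finset G) (T : Finset (G × G)) (hT : T ⊆ S ×ˢ X) (k : ℕ)
    (hh : ∀ q, ∀ U : Finset G, (∀ p ∈ U, (p, q) ∈ T) → k * U.card ≤ S.card) :
    k * T.card ≤ S.card * X.card := by
  rw [Finset.card_eq_sum_card_fiberwise (f := Prod.snd) (t := X)
    fun t ht => (Finset.mem_product.1 (hT ht)).2, Finset.mul_sum]
  calc _ ≤ ∑ _q ∈ X, S.card := Finset.sum_le_sum fun q _ => by
        rw [← Finset.card_image_of_injOn (f := Prod.fst) fun t ht t' ht' e =>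
          Prod.ext e ((Finset.mem_filter.1 ht).2.trans (Finset.mem_filter.1 ht').2.symm)]
        refine hh q _ fun p hp => ?_
        obtain ⟨t, ht, rfl⟩ := Finset.mem_image.1 hp
        obtain ⟨h1, rfl⟩ := Finset.mem_filter.1 ht
        exact h1
    _ = _ := by simp [mul_comm]

theorem fib2 (S X : Finset G) (T : Finset (G × G)) (hT : T ⊆ S ×ˢ X) (k : ℕ)
    (hh : ∀ p, ∀ U : Finset G, (∀ q ∈ U, (p, q) ∈ T) → k * U.card ≤ X.card) :
    k * T.card ≤ S.card * X.card := by
  rw [Finset.card_eq_sum_card_fiberwise (f := Prod.fst) (t := S)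
    fun t ht => (Finset.mem_product.1 (hT ht)).1, Finset.mul_sum]
  calc _ ≤ ∑ _q ∈ S, X.card := Finset.sum_le_sum fun q _ => by
        rw [← Finset.card_image_of_injOn (f := Prod.snd) fun t ht t' ht' e =>
          Prod.ext ((Finset.mem_filter.1 ht).2.trans (Finset.mem_filter.1 ht').2.symm) e]
        refine hh q _ fun p hp => ?_
        obtain ⟨t, ht, rfl⟩ := Finset.mem_image.1 hp
        obtain ⟨h1, rfl⟩ := Finset.mem_filter.1 ht
        exact h1
    _ = _ := by simp

theorem centered (S X : Finset G) (R : ℕ) (hR : ∀ p ∈ S, N p.toWord ≤ R)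
    (hC : ∀ a : Lt, 2 * (S.filter fun p => a ∈ p.toWord.getLast?).card ≤ S.card) :
    S.card * X.card ≤ 64 * ((S * X).card * (R + 1)) := by
  have hred : 2 * ((S ×ˢ X).filter fun t => ¬ Rd t.1 t.2).card ≤ S.card * X.card := by
    refine fib1 S X _ (Finset.filter_subset _ _) 2 fun q U hU => ?_
    cases hq : q.toWord.head? with
    | none =>
      rw [Finset.eq_empty_of_forall_notMem fun p hp => (Finset.mem_filter.1 (hU p hp)).2
        (rd_of p q fun a _ b hb => by simp [hq] at hb)]
      simp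
    | some b =>
      refine le_trans (Nat.mul_le_mul_left _ (Finset.card_le_card fun p hp => ?_))
        (hC (b.1, !b.2))
      obtain ⟨hp1, hp2⟩ := Finset.mem_filter.1 (hU p hp)
      refine Finset.mem_filter.2 ⟨(Finset.mem_product.1 hp1).1, ?_⟩
      by_contra hn
      refine hp2 (rd_of p q fun a ha b' hb' e => ?_)
      obtain rfl : b = b' := by simpa [hq] using hb'
      by_contra hne
      apply hn
      have : a = (b.1, !b.2) := Prod.ext e (by
        rcases a with ⟨_, _ | _⟩ <;> rcases b with ⟨_, _ | _⟩ <;> simp_all)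
      rwa [← this]
  let al : ℤ → Finset G := fun m => S.filter fun p => ∃ a ∈ p.toWord.getLast?, h a = m
  let be : ℤ → Finset G := fun m => X.filter fun q => ∃ b ∈ q.toWord.head?, h b = m + 1
  by_cases hbig : ∃ m, S.card < 8 * (al m).card ∧ X.card < 8 * (be m).card
  · obtain ⟨m, h1, h2⟩ := hbig
    have := count S X R hR (al m ×ˢ be m)
      (Finset.product_subset_product (Finset.filter_subset _ _) (Finset.filter_subset _ _))
      (fun t ht => by
        obtain ⟨ha, hb⟩ := Finset.mem_product.1 ht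
        obtain ⟨a, ha, e⟩ := (Finset.mem_filter.1 ha).2
        obtain ⟨b, hb, e'⟩ := (Finset.mem_filter.1 hb).2
        exact rd_of_cont _ _ ⟨a, ha, b, hb, by omega⟩)
      (fun t ht t' ht' => by
        obtain ⟨a, ha, e⟩ := (Finset.mem_filter.1 (Finset.mem_product.1 ht).1).2
        obtain ⟨b, hb, e'⟩ := (Finset.mem_filter.1 (Finset.mem_product.1 ht').1).2
        exact Or.inr ⟨a, ha, b, hb, by omega⟩)
    rw [Finset.card_product] at this
    calc S.card * X.card ≤ (8 * (al m).card) * (8 * (be m).card) := Nat.mul_le_mul h1.le h2.le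
      _ = 64 * ((al m).card * (be m).card) := by ring
      _ ≤ _ := Nat.mul_le_mul_left _ this
  · push Not at hbig
    let T1 := (S ×ˢ X).filter fun t => ∃ a ∈ t.1.toWord.getLast?,
        ∃ b ∈ t.2.toWord.head?, h b = h a + 1 ∧ 8 * (al (h a)).card ≤ S.card
    let T2 := (S ×ˢ X).filter fun t => ∃ a ∈ t.1.toWord.getLast?,
        ∃ b ∈ t.2.toWord.head?, h b = h a + 1 ∧ 8 * (be (h a)).card ≤ X.card
    have c1 := fib1 S X T1 (Finset.filter_subset _ _) 8 fun q U hU => by
      rcases U.eq_empty_or_nonempty with rfl | ⟨p0, h0⟩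
      · simp
      · obtain ⟨a0, -, b0, hb0, e0, l0⟩ := (Finset.mem_filter.1 (hU p0 h0)).2
        refine le_trans (Nat.mul_le_mul_left _ (Finset.card_le_card fun p hp => ?_)) l0
        obtain ⟨hp1, a, ha, b, hb, e, -⟩ := Finset.mem_filter.1 (hU p hp)
        rw [Option.mem_def] at hb hb0
        obtain rfl : b = b0 := Option.some.inj (hb.symm.trans hb0)
        exact Finset.mem_filter.2 ⟨(Finset.mem_product.1 hp1).1, a, ha, by omega⟩
    have c2 := fib2 S X T2 (Finset.filter_subset _ _) 8 fun p U hU => by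
      rcases U.eq_empty_or_nonempty with rfl | ⟨q0, h0⟩
      · simp
      · obtain ⟨a0, ha0, b0, -, e0, l0⟩ := (Finset.mem_filter.1 (hU q0 h0)).2
        refine le_trans (Nat.mul_le_mul_left _ (Finset.card_le_card fun q hq => ?_)) l0
        obtain ⟨hq1, a, ha, b, hb, e, -⟩ := Finset.mem_filter.1 (hU q hq)
        rw [Option.mem_def] at ha ha0
        obtain rfl : a = a0 := Option.some.inj (ha.symm.trans ha0)
        exact Finset.mem_filter.2 ⟨(Finset.mem_product.1 hq1).2, b, hb, e⟩
    have c3 := count S X R hR ((S ×ˢ X).filter fun t => Rd t.1 t.2 ∧ ¬ Cont t.1.toWord t.2.toWord)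
      (Finset.filter_subset _ _) (fun t ht => (Finset.mem_filter.1 ht).2.1)
      (fun t ht t' ht' => Or.inl ⟨(Finset.mem_filter.1 ht).2.2, (Finset.mem_filter.1 ht').2.2⟩)
    have c4 : (S ×ˢ X).card ≤ ((S ×ˢ X).filter fun t => ¬ Rd t.1 t.2).card +
        T1.card + T2.card +
        ((S ×ˢ X).filter fun t => Rd t.1 t.2 ∧ ¬ Cont t.1.toWord t.2.toWord).card := by
      refine le_trans (Finset.card_le_card ?_) (le_trans (Finset.card_union_le _ _)
        (Nat.add_le_add_right (le_trans (Finset.card_union_le _ _)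
          (Nat.add_le_add_right (Finset.card_union_le _ _) _)) _))
      intro t ht
      simp only [T1, T2, Finset.mem_union, Finset.mem_filter]
      by_cases hr : Rd t.1 t.2
      · by_cases hc : Cont t.1.toWord t.2.toWord
        · obtain ⟨a, ha, b, hb, e⟩ := hc
          by_cases h8 : 8 * (al (h a)).card ≤ S.card
          · exact Or.inl (Or.inl (Or.inr ⟨ht, a, ha, b, hb, e, h8⟩))
          · exact Or.inl (Or.inr ⟨ht, a, ha, b, hb, e, hbig _ (not_le.1 h8)⟩)
        · exact Or.inr ⟨ht, hr, hc⟩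
      · exact Or.inl (Or.inl (Or.inl ⟨ht, hr⟩))
    rw [Finset.card_product] at c4
    omega

theorem norm_drop (p : G) (a : Lt) (ha : a ∈ p.toWord.getLast?) :
    norm (p * (FreeGroup.mk [a])⁻¹) + 1 ≤ norm p := by
  obtain ⟨u, hu⟩ : ∃ u, p.toWord = u ++ [a] := List.getLast?_eq_some_iff.1 ha
  have : p * (FreeGroup.mk [a])⁻¹ = FreeGroup.mk u := by
    rw [← mk_toWord (x := p), hu, ← mul_mk, mul_inv_cancel_right]
  rw [this]
  have h1 : norm (FreeGroup.mk u) ≤ u.length := norm_mk_le
  have h2 : norm p = u.length + 1 := by rw [FreeGroup.norm, hu]; simp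
  omega

theorem expand (S X : Finset G) (R : ℕ) (hR : ∀ s ∈ S, N s.toWord ≤ R) :
    S.card * X.card ≤ 64 * ((S * X).card * (2 * R + 1)) := by
  obtain ⟨v, hv⟩ : ∃ v : G, ∀ w : G, ∑ s ∈ S, norm (s * v) ≤ ∑ s ∈ S, norm (s * w) :=
    ⟨Function.argmin fun v : G => ∑ s ∈ S, norm (s * v), fun w =>
      Function.argmin_le (fun v : G => ∑ s ∈ S, norm (s * v)) w⟩
  have hC : ∀ a : Lt, 2 * (S.filter fun s => a ∈ (s * v).toWord.getLast?).card ≤ S.card := by
    intro a
    have h1 := hv (v * (FreeGroup.mk [a])⁻¹)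
    have h2 : ∑ s ∈ S, (norm (s * (v * (FreeGroup.mk [a])⁻¹)) +
        2 * (if a ∈ (s * v).toWord.getLast? then 1 else 0)) ≤ ∑ s ∈ S, (norm (s * v) + 1) := by
      refine Finset.sum_le_sum fun s _ => ?_
      rw [← mul_assoc]
      split_ifs with hs
      · have := norm_drop _ a hs
        omega
      · have h3 := norm_mul_le (s * v) (FreeGroup.mk [a])⁻¹
        rw [norm_inv_eq] at h3
        have h4 : norm (FreeGroup.mk [a]) ≤ 1 := norm_mk_le
        omega
    rw [Finset.sum_add_distrib, Finset.sum_add_distrib, ← Finset.mul_sum, ← Finset.card_filter,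
      ← Finset.card_eq_sum_ones] at h2
    omega
  have hN : ∀ s ∈ S, N (s * v).toWord ≤ 2 * R := by
    intro s hs
    cases ha : (s * v).toWord.getLast? with
    | none => rw [List.getLast?_eq_none_iff.1 ha]; exact Nat.zero_le _
    | some a =>
      have : ∃ s' ∈ S, a ∉ (s' * v).toWord.getLast? := by
        by_contra hcon
        push Not at hcon
        have h1 := hC a
        rw [Finset.filter_true_of_mem hcon] at h1
        have := Finset.card_pos.2 ⟨s, hs⟩
        omega
      obtain ⟨s', hs', hn⟩ := this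
      have hrd : Rd (s * v) (s' * v)⁻¹ := by
        refine rd_of _ _ fun a' ha' b hb e => ?_
        obtain rfl : a = a' := by simpa [ha] using ha'
        by_contra hne
        apply hn
        rw [toWord_inv, invRev, List.head?_reverse, List.getLast?_map] at hb
        obtain ⟨c, hc, rfl⟩ := Option.mem_map.1 hb
        have : a = c := Prod.ext e (by
          rcases a with ⟨_, _ | _⟩ <;> rcases c with ⟨_, _ | _⟩ <;> simp_all)
        rwa [this]
      have h1 := N_left (s * v).toWord ((s' * v)⁻¹).toWord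
      rw [← hrd, show s * v * (s' * v)⁻¹ = s * s'⁻¹ by group] at h1
      have h2 := N_mul s s'⁻¹
      rw [toWord_inv, N_invRev] at h2
      have := hR s hs
      have := hR s' hs'
      omega
  have key := centered (S.image (· * v)) (X.image (v⁻¹ * ·)) (2 * R) (fun p hp => by
      obtain ⟨s, hs, rfl⟩ := Finset.mem_image.1 hp
      exact hN s hs) (fun a => by
      rw [Finset.filter_image, Finset.card_image_of_injective _ (mul_left_injective v),
        Finset.card_image_of_injective _ (mul_left_injective v)]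
      exact hC a)
  rw [Finset.card_image_of_injective _ (mul_left_injective v),
    Finset.card_image_of_injective _ (mul_right_injective v⁻¹)] at key
  refine key.trans (Nat.mul_le_mul_left _ (Nat.mul_le_mul_right _ (Finset.card_le_card ?_)))
  intro y hy
  obtain ⟨_, h1, _, h2, rfl⟩ := Finset.mem_mul.1 hy
  obtain ⟨s, hs, rfl⟩ := Finset.mem_image.1 h1
  obtain ⟨x, hx, rfl⟩ := Finset.mem_image.1 h2
  rw [show s * v * (v⁻¹ * x) = s * x by group]
  exact Finset.mul_mem_mul hs hx

def U (w : List Lt) : ℕ := w.toFinset.sup fun a => Nat.log 2 a.1.1.natAbs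

theorem U_le (w : List Lt) (m : ℕ) : U w ≤ m ↔ ∀ a ∈ w, Nat.log 2 a.1.1.natAbs ≤ m := by
  simp [U, Finset.sup_le_iff]

def Ln (g : G) : ℕ := N g.toWord + U g.toWord

theorem Ln_one : Ln 1 = 0 := rfl

theorem Ln_inv (g : G) : Ln g⁻¹ = Ln g := by
  have : ∀ w : List Lt, U (invRev w) ≤ U w := fun w => (U_le _ _).2 fun a ha => by
    simp only [invRev, List.mem_reverse, List.mem_map] at ha
    obtain ⟨b, hb, rfl⟩ := ha
    exact (U_le w _).1 le_rfl b hb
  have h2 := this (invRev g.toWord)
  rw [invRev_invRev] at h2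
  rw [Ln, Ln, toWord_inv, N_invRev, le_antisymm (this _) h2]

theorem Ln_mul (g k : G) : Ln (g * k) ≤ Ln g + Ln k := by
  have h1 := N_mul g k
  have h2 : U (g * k).toWord ≤ U g.toWord + U k.toWord := (U_le _ _).2 fun a ha => by
    rcases List.mem_append.1 ((toWord_mul_sublist g k).subset ha) with h3 | h3
    · exact ((U_le _ _).1 le_rfl a h3).trans (Nat.le_add_right _ _)
    · exact ((U_le _ _).1 le_rfl a h3).trans (Nat.le_add_left _ _)
  simp only [Ln]
  omega

def wd (k : ℕ) (i : ℕ) (f : ℕ → Bool) : List Lt :=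
  (List.range' i k).map fun j : ℕ => (((j : ℤ), f j), true)

theorem wd_red : ∀ (k i : ℕ) (f : ℕ → Bool), IsReduced (wd k i f)
  | 0, _, _ => by simp [wd]
  | 1, _, _ => by simp [wd]
  | k + 2, i, f => by
    have := wd_red (k + 1) (i + 1) f
    simp only [wd, List.range'_succ, List.map_cons] at this ⊢
    exact isReduced_cons_cons.2 ⟨fun _ => rfl, this⟩

theorem wd_N : ∀ (k i : ℕ) (f : ℕ → Bool), N (wd k i f) ≤ 1
  | 0, _, _ => by simp [wd, N]
  | 1, _, _ => by simp [wd, N]
  | k + 2, i, f => by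
    have := wd_N (k + 1) (i + 1) f
    simp only [wd, List.range'_succ, List.map_cons] at this ⊢
    rw [N, if_pos (by simp [h])]
    omega

theorem wd_congr (k i : ℕ) (f g : ℕ → Bool) (hh : ∀ j, i ≤ j → j < i + k → f j = g j) :
    wd k i f = wd k i g := by
  refine List.map_congr_left fun j hj => ?_
  rw [List.mem_range'_1] at hj
  rw [hh j hj.1 hj.2]

def ext {k : ℕ} (f : Fin k → Bool) (j : ℕ) : Bool := if hj : j < k then f ⟨j, hj⟩ else false

def e {k : ℕ} (f : Fin k → Bool) : G := FreeGroup.mk (wd k 0 (ext f))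

theorem e_word {k : ℕ} (f : Fin k → Bool) : (e f).toWord = wd k 0 (ext f) := by
  rw [e, toWord_mk, (wd_red _ _ _).reduce_eq]

theorem e_inj {k : ℕ} : Function.Injective (e (k := k)) := by
  intro f g hfg
  have h1 := congrArg toWord hfg
  rw [e_word, e_word, wd, wd, List.map_inj_left] at h1
  funext j
  have := h1 j (by simp)
  simpa [ext] using this

theorem e_len {m : ℕ} (f : Fin (2 ^ m) → Bool) : Ln (e f) ≤ 1 + m := by
  rw [Ln, e_word]
  refine add_le_add (wd_N _ _ _) ((U_le _ _).2 fun a ha => ?_)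
  obtain ⟨j, hj, rfl⟩ := List.mem_map.1 ha
  rw [List.mem_range'_1] at hj
  simp only [Int.natAbs_natCast]
  exact (Nat.log_mono_right (show j ≤ 2 ^ m by omega)).trans (by simp)

def mix {k : ℕ} (i : Fin k) (f g : Fin k → Bool) : Fin k → Bool := fun j => if j < i then f j else g j

theorem e_split {k : ℕ} (i : Fin k) (f : Fin k → Bool) :
    e f = FreeGroup.mk (wd i 0 (ext f)) * FreeGroup.mk (wd (k - i) i (ext f)) := by
  rw [mul_mk, e, wd, wd, wd, ← List.map_append]
  congr 2
  have := List.range'_append_1 (s := 0) (m := i) (n := k - i)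
  rw [zero_add, show (i : ℕ) + (k - i) = k by omega] at this
  exact this.symm

theorem e_mix {k : ℕ} (i : Fin k) (f g : Fin k → Bool) :
    (e (mix i g f))⁻¹ * e (mix i g g) = (e f)⁻¹ * e (mix i f g) := by
  have h1 : ∀ u v : Fin k → Bool, wd i 0 (ext (mix i u v)) = wd i 0 (ext u) := fun u v =>
    wd_congr _ _ _ _ fun j _ hj => by
      have hj' : j < k := by omega
      simp only [ext, dif_pos hj', mix]
      rw [if_pos (show (⟨j, hj'⟩ : Fin k) < i from by rw [Fin.lt_def]; simpa using hj)]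
  have h2 : ∀ u v : Fin k → Bool, wd (k - i) i (ext (mix i u v)) = wd (k - i) i (ext v) :=
    fun u v => wd_congr _ _ _ _ fun j hj0 hj => by
      have hj' : j < k := by omega
      simp only [ext, dif_pos hj', mix]
      rw [if_neg (show ¬ (⟨j, hj'⟩ : Fin k) < i from by rw [Fin.lt_def]; simpa using hj0)]
  rw [e_split i (mix i g f), e_split i (mix i g g), e_split i f, e_split i (mix i f g)]
  simp only [h1, h2]
  group

abbrev P (k : ℕ) := (Fin k → Bool) × (Fin k → Bool)

noncomputable def nn (k : ℕ) (x : G) : ℕ :=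
  (Finset.univ.filter fun t : P k => (e t.1)⁻¹ * e t.2 = x).card

noncomputable def En (k : ℕ) : ℕ :=
  ∑ t : P k, nn k ((e t.1)⁻¹ * e t.2)

theorem En_ge (k : ℕ) : k * (2 ^ k * 2 ^ k) ≤ 2 * En k := by
  let D : Finset (Fin k × P k) := Finset.univ.filter fun t => t.2.1 t.1 ≠ t.2.2 t.1
  have h1 : k * (2 ^ k * 2 ^ k) ≤ 2 * D.card := by
    have h2 : Dᶜ.card ≤ D.card := Finset.card_le_card_of_injOn
      (fun t => (t.1, t.2.1, fun j => !t.2.2 j)) (fun t ht => by
        simp only [D, Finset.coe_compl, Set.mem_compl_iff, Finset.mem_coe, Finset.mem_filter,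
          Finset.mem_univ, true_and, not_not] at ht ⊢
        rw [ht]; simp)
      (fun t _ t' _ hh => by
        simp only [Prod.mk.injEq] at hh
        refine Prod.ext hh.1 (Prod.ext hh.2.1 (funext fun j => ?_))
        simpa using congrFun hh.2.2 j)
    have h3 := Finset.card_add_card_compl D
    simp only [P, Fintype.card_prod, Fintype.card_fin, Fintype.card_fun, Fintype.card_bool] at h3
    omega
  have h4 : En k = ((Finset.univ : Finset (P k × P k)).filter fun t =>
      (e t.2.1)⁻¹ * e t.2.2 = (e t.1.1)⁻¹ * e t.1.2).card := by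
    rw [Finset.card_filter, Fintype.sum_prod_type, En]
    refine Finset.sum_congr rfl fun t _ => ?_
    rw [nn, Finset.card_filter]
  have h5 : D.card ≤ En k := by
    rw [h4]
    refine Finset.card_le_card_of_injOn
      (fun t => ((t.2.1, mix t.1 t.2.1 t.2.2), (mix t.1 t.2.2 t.2.1, mix t.1 t.2.2 t.2.2)))
      (fun t _ => by
        simp only [Finset.coe_filter, Finset.mem_univ, true_and, Set.mem_ofPred_eq]
        exact e_mix _ _ _) ?_
    rintro ⟨i, f, g⟩ ht ⟨i', f', g'⟩ ht' hh
    simp only [D, Finset.coe_filter, Finset.mem_univ, true_and, Set.mem_ofPred_eq] at ht ht'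
    simp only [Prod.mk.injEq] at hh
    obtain ⟨⟨rfl, a1⟩, -, a2⟩ := hh
    have hg : g = g' := funext fun j => by simpa [mix] using congrFun a2 j
    subst hg
    have hi : i = i' := by
      rcases lt_trichotomy i i' with hl | hl | hl
      · have := congrFun a1 i
        simp only [mix, lt_irrefl, if_false, if_pos hl] at this
        exact absurd this.symm ht
      · exact hl
      · have := congrFun a1 i'
        simp only [mix, lt_irrefl, if_false, if_pos hl] at this
        exact absurd this ht'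
    rw [hi]
  omega

theorem En_le (k : ℕ) (K : ℝ)
    (hK : ∀ (A B : Finset G) (f g : G → ℂ), (∀ y ∈ A, ∃ u : Fin k → Bool, y = e u) →
      ∑ x ∈ A * B, ‖∑ p ∈ (A ×ˢ B).filter (fun p => p.1 * p.2 = x), f p.1 * g p.2‖ ^ 2
        ≤ K * (∑ y ∈ A, ‖f y‖ ^ 2) * (∑ z ∈ B, ‖g z‖ ^ 2)) (hk : 0 < k) : (k : ℝ) ≤ 2 * K := by
  let A : Finset G := Finset.univ.image (e (k := k))
  let B : Finset G := Finset.univ.image fun t : P k => (e t.1)⁻¹ * e t.2
  have hA : A.card = 2 ^ k := by
    rw [Finset.card_image_of_injective _ e_inj]; simp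
  have h1 := hK A B (fun _ => 1) (fun x => (nn k x : ℂ)) fun y hy => by
    obtain ⟨u, -, rfl⟩ := Finset.mem_image.1 hy
    exact ⟨u, rfl⟩
  have h2 : ∑ z ∈ B, ‖(nn k z : ℂ)‖ ^ 2 = (En k : ℝ) := by
    rw [En, Finset.sum_comp (nn k) fun t : P k => (e t.1)⁻¹ * e t.2]
    push_cast
    refine Finset.sum_congr rfl fun z _ => ?_
    rw [Complex.norm_natCast, smul_eq_mul, sq]
    simp [nn]
  have h3 : ∑ y ∈ A, ‖(1 : ℂ)‖ ^ 2 = (2 : ℝ) ^ k := by simp [hA]
  rw [h2, h3] at h1
  let m : (Fin k → Bool) → ℕ := fun v => ∑ u : Fin k → Bool, nn k ((e u)⁻¹ * e v)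
  have h4 : ∑ v, (m v : ℝ) = En k := by
    rw [En, Fintype.sum_prod_type_right]
    simp [m]
  have hsub : A ⊆ A * B := fun y hy => by
    obtain ⟨u, -, rfl⟩ := Finset.mem_image.1 hy
    exact Finset.mem_mul.2 ⟨e u, hy, (e u)⁻¹ * e u,
      Finset.mem_image.2 ⟨(u, u), Finset.mem_univ _, rfl⟩, by group⟩
  have h5 : ∑ v, (m v : ℝ) ^ 2 ≤ K * 2 ^ k * En k := by
    refine le_trans ?_ ((Finset.sum_le_sum_of_subset_of_nonneg hsub
      fun _ _ _ => by positivity).trans h1)
    rw [Finset.sum_image fun _ _ _ _ hh => e_inj hh]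
    refine Finset.sum_le_sum fun v _ => ?_
    have : (A ×ˢ B).filter (fun p => p.1 * p.2 = e v) =
        Finset.univ.image fun u : Fin k → Bool => (e u, (e u)⁻¹ * e v) := by
      ext ⟨a, b⟩
      simp only [Finset.mem_filter, Finset.mem_product, Finset.mem_image, Finset.mem_univ,
        true_and, A, B, Prod.mk.injEq]
      constructor
      · rintro ⟨⟨⟨u, rfl⟩, -⟩, hh⟩
        exact ⟨u, rfl, by rw [← hh]; group⟩
      · rintro ⟨u, rfl, rfl⟩
        exact ⟨⟨⟨u, rfl⟩, (u, v), rfl⟩, by group⟩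
    rw [this, Finset.sum_image fun _ _ _ _ hh => e_inj (congrArg Prod.fst hh)]
    simp only [one_mul]
    rw [← Nat.cast_sum, Complex.norm_natCast]
  have h6 : (∑ v, (m v : ℝ)) ^ 2 ≤ 2 ^ k * ∑ v, (m v : ℝ) ^ 2 := by
    have := sq_sum_le_card_mul_sum_sq (s := (Finset.univ : Finset (Fin k → Bool)))
      (f := fun v => (m v : ℝ))
    simpa using this
  rw [h4] at h6
  have h7 : (k : ℝ) * (2 ^ k * 2 ^ k) ≤ 2 * En k := by exact_mod_cast En_ge k
  have hp : (0 : ℝ) < 2 ^ k := by positivity
  have hk' : (0 : ℝ) < k := by exact_mod_cast hk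
  have hE : (0 : ℝ) < En k := by
    have : (0 : ℝ) < k * (2 ^ k * 2 ^ k) := by positivity
    linarith
  have h8 : (En k : ℝ) ≤ K * (2 ^ k * 2 ^ k) := by
    have : (En k : ℝ) * En k ≤ (K * (2 ^ k * 2 ^ k)) * En k := by
      have := mul_le_mul_of_nonneg_left h5 hp.le
      nlinarith
    exact le_of_mul_le_mul_right this hE
  have : (k : ℝ) * (2 ^ k * 2 ^ k) ≤ (2 * K) * (2 ^ k * 2 ^ k) := by linarith
  exact le_of_mul_le_mul_right this (by positivity)

noncomputable def L (g : G) : ℝ := Ln g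

theorem RE1 : ∀ r : ℝ, 0 ≤ r → ∀ S X : Finset G, (∀ s ∈ S, L s ≤ r) →
    (S.card : ℝ) * (X.card : ℝ) ≤ 128 * (1 + r) * ((S * X).card : ℝ) := by
  intro r hr S X hS
  have h1 := expand S X ⌊r⌋₊ fun s hs => Nat.le_floor (le_trans (by
    rw [L, Ln]; push_cast; linarith [(Nat.cast_nonneg (U s.toWord) : (0 : ℝ) ≤ _)]) (hS s hs))
  have h2 : (S.card : ℝ) * X.card ≤ 64 * ((S * X).card * (2 * (⌊r⌋₊ : ℝ) + 1)) := by
    exact_mod_cast h1
  have h3 := Nat.floor_le hr
  have h4 : (0 : ℝ) ≤ (S * X).card := Nat.cast_nonneg _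
  nlinarith

theorem RE : ∃ C : ℝ, 0 < C ∧ ∃ d : ℕ, ∀ r : ℝ, 0 ≤ r → ∀ S X : Finset G,
    (∀ s ∈ S, L s ≤ r) →
    (S.card : ℝ) * (X.card : ℝ) ≤ C * (1 + r) ^ d * ((S * X).card : ℝ) :=
  ⟨128, by norm_num, 1, fun r hr S X hS => by rw [pow_one]; exact RE1 r hr S X hS⟩

theorem notRD : ¬ ∃ C : ℝ, 0 < C ∧ ∃ d : ℕ, ∀ r : ℝ, 0 ≤ r →
    ∀ (A B : Finset G) (f g : G → ℂ), (∀ y ∈ A, L y ≤ r) →
      ∑ x ∈ A * B, ‖∑ p ∈ (A ×ˢ B).filter (fun p => p.1 * p.2 = x), f p.1 * g p.2‖ ^ 2
        ≤ (C * (1 + r) ^ d) ^ 2 * (∑ y ∈ A, ‖f y‖ ^ 2) * (∑ z ∈ B, ‖g z‖ ^ 2) := by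
  rintro ⟨C, hC, d, hd⟩
  have h1 : ∀ m : ℕ, (2 : ℝ) ^ m ≤ 2 * (C * (1 + (1 + (m : ℝ))) ^ d) ^ 2 := by
    intro m
    have := En_le (2 ^ m) _ (fun A B f g hA => hd (1 + (m : ℝ)) (by positivity) A B f g
      fun y hy => by
        obtain ⟨u, rfl⟩ := hA y hy
        rw [L]; exact_mod_cast e_len u) (by positivity)
    exact_mod_cast this
  have h2 := tendsto_pow_const_div_const_pow_of_one_lt (2 * d) (show (1 : ℝ) < 2 by norm_num)
  obtain ⟨n, hn, hn2⟩ := ((h2.eventually (gt_mem_nhds (show (0 : ℝ) < 1 / (8 * C ^ 2) by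
    positivity))).and (Filter.eventually_ge_atTop 2)).exists
  obtain ⟨m, rfl⟩ : ∃ m, n = m + 2 := ⟨n - 2, by omega⟩
  have h3 := h1 m
  rw [div_lt_div_iff₀ (by positivity) (by positivity)] at hn
  push_cast at hn
  rw [mul_pow, ← pow_mul, mul_comm d 2, show 1 + (1 + (m : ℝ)) = m + 2 by ring] at h3
  rw [pow_add] at hn
  nlinarith

theorem len_le (M : ℕ) : ∀ (a : Lt) (t : List Lt), (∀ b ∈ a :: t, |h b| ≤ M) →
    ((a :: t).length : ℤ) + M + h a ≤ N (a :: t) * (2 * M + 1)
  | a, [], hM => by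
    have := abs_le.1 (hM a (by simp))
    simp [N]; omega
  | a, b :: t, hM => by
    have ih := len_le M b t fun c hc => hM c (List.mem_cons_of_mem _ hc)
    have h1 := abs_le.1 (hM a (by simp))
    have h2 := abs_le.1 (hM b (by simp))
    rw [N]
    simp only [List.length_cons] at ih ⊢
    push_cast at ih ⊢
    split_ifs with hc <;> nlinarith

theorem proper (r : ℝ) : {g : G | L g ≤ r}.Finite := by
  let R := ⌊r⌋₊
  let F : Finset Lt := ((Finset.Icc (-(2 ^ (R + 1) : ℤ)) (2 ^ (R + 1))) ×ˢ Finset.univ) ×ˢ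
    Finset.univ
  refine Set.Finite.of_finite_image (f := toWord) ?_ toWord_injective.injOn
  refine ((List.finite_length_le F (R * (2 * 2 ^ (R + 1) + 1))).image
    (List.map Subtype.val)).subset ?_
  rintro _ ⟨g, hg, rfl⟩
  have h1 : Ln g ≤ R := Nat.le_floor hg
  have h2 : ∀ a ∈ g.toWord, a.1.1.natAbs ≤ 2 ^ (R + 1) := fun a ha => by
    have := (U_le g.toWord R).1 (le_trans (Nat.le_add_left _ _) h1) a ha
    exact (Nat.lt_pow_succ_log_self (by norm_num) _).le.trans
      (Nat.pow_le_pow_right (by norm_num) (by omega))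
  have h3 : ∀ a ∈ g.toWord, |a.1.1| ≤ ((2 ^ (R + 1) : ℕ) : ℤ) := fun a ha => by
    rw [← Int.natCast_natAbs]; exact_mod_cast h2 a ha
  have h4 : ∀ a ∈ g.toWord, a ∈ F := fun a ha => by
    have := abs_le.1 (h3 a ha)
    push_cast at this
    simp [F, this]
  refine ⟨g.toWord.attachWith _ h4, ?_, List.attachWith_map_subtype_val h4⟩
  simp only [Set.mem_ofPred_eq, List.length_attachWith]
  have h5 : N g.toWord ≤ R := le_trans (Nat.le_add_right _ _) h1
  cases hw : g.toWord with
  | nil => simp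
  | cons a t =>
    rw [hw] at h3 h5
    have h6 : ∀ b ∈ a :: t, |h b| ≤ ((2 ^ (R + 1) : ℕ) : ℤ) := fun b hb => by
      have := h3 b hb
      unfold h
      split_ifs <;> simpa using this
    have h7 := len_le _ a t h6
    have h8 := abs_le.1 (h6 a (by simp))
    have h9 : ((a :: t).length : ℤ) ≤ N (a :: t) * (2 * ((2 ^ (R + 1) : ℕ) : ℤ) + 1) := by
      linarith [h8.1]
    have h10 : (a :: t).length ≤ N (a :: t) * (2 * 2 ^ (R + 1) + 1) := by exact_mod_cast h9
    exact h10.trans (Nat.mul_le_mul_right _ h5)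

end Pool.Agent.H.MP_d581c5_al
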